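import Pool.Agent.H452R4.LI.Fin
import Pool.Agent.H452R4.LI.GI
import Pool.Agent.H452R4.LI.PES
import Pool.Agent.H452R4.LI.ZC
import Pool.Agent.H345R2.AP.Prime

/-! Zeros of zeta in vertical arithmetic progressions: on RH at most half of the terms are
ordinates. -/

set_option autoImplicit false

open Finset ArithmeticFunction Filter

namespace Pool.Agent.Y743.AP

open Pool.Agent.H345R2.AP (mz SS SS_nonneg DD DD_nonneg primesum)
open Pool.Agent.H452R4.LI (RH0 gi plain)

lemma zero_of_mz {t : ℝ} (h : mz t ≠ 0) : riemannZeta (1 / 2 + Complex.I * (t : ℂ)) = 0 := by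
  by_contra h0
  apply h
  unfold mz analyticOrderNatAt
  by_cases ha : AnalyticAt ℂ riemannZeta (1 / 2 + Complex.I * (t : ℂ))
  · rw [ha.analyticOrderAt_eq_zero.2 h0]; rfl
  · rw [analyticOrderAt_of_not_analyticAt ha]; rfl

/-- multiplicities are at most logarithmic -/
lemma mz_le : ∃ C : ℝ, 0 < C ∧ ∀ t : ℝ, 0 < t → (mz t : ℝ) ≤ C * (t + 3) := by
  classical
  obtain ⟨C, hC, hz⟩ := H370.zcount H370.good_zeta
  have hfin := Pool.Agent.H452R4.LI.ZCaux.small_finite
  set B : ℝ := ∑ γ ∈ hfin.toFinset, (mz γ : ℝ) with hB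
  have hB0 : 0 ≤ B := Finset.sum_nonneg fun _ _ => by positivity
  refine ⟨C + B + 1, by positivity, fun t ht => ?_⟩
  by_cases hz0 : riemannZeta (1 / 2 + Complex.I * (t : ℂ)) = 0
  swap
  · have : mz t = 0 := by
      by_contra h; exact hz0 (zero_of_mz h)
    rw [this]
    push_cast
    positivity
  by_cases ht3 : t < 3
  · have h1 : t ∈ hfin.toFinset := by
      rw [Set.Finite.mem_toFinset]
      exact ⟨ht, by linarith, hz0⟩
    have h2 : (mz t : ℝ) ≤ B :=
      Finset.single_le_sum (f := fun γ => (mz γ : ℝ)) (fun _ _ => by positivity) h1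
    nlinarith
  · push Not at ht3
    have hT2 : (1 : ℝ) ≤ t - 1 := by linarith
    have hcnt := hz t ht3
    rw [H370.NN_eq_sum H370.good_zeta _ _ hT2] at hcnt
    have hmem : (1 / 2 + Complex.I * (t : ℂ)) ∈
        (H370.zset_finite H370.good_zeta (t - 1) (t + 1) hT2).toFinset := by
      rw [Set.Finite.mem_toFinset]
      refine ⟨?_, ?_, ?_, ?_, hz0⟩
      · simp
      · simp; norm_num
      · simp
      · simp
    have h1 : mz t ≤ ∑ s ∈ (H370.zset_finite H370.good_zeta (t - 1) (t + 1) hT2).toFinset,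
        H370.mult riemannZeta s :=
      Finset.single_le_sum (f := fun s => H370.mult riemannZeta s) (fun _ _ => Nat.zero_le _) hmem
    have h2 : (mz t : ℝ) ≤ C * Real.log t := by
      refine le_trans ?_ hcnt
      exact_mod_cast h1
    have h3 : Real.log t ≤ t := (Real.log_le_sub_one_of_pos ht).trans (by linarith)
    have h4 : C * Real.log t ≤ C * t := mul_le_mul_of_nonneg_left h3 hC.le
    nlinarith

lemma ev_sqrt (lam δ : ℝ) (hδ : 0 < δ) : ∀ᶠ L : ℝ in atTop, 4 * Real.sqrt (lam * L) ≤ δ / 8 * L := by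
  filter_upwards [eventually_ge_atTop (1 : ℝ), eventually_ge_atTop (1024 * lam / δ ^ 2)] with L h1 h3
  have h4 : Real.sqrt (lam * L) ≤ δ / 32 * L := by
    rw [Real.sqrt_le_left (by positivity)]
    rw [div_le_iff₀ (by positivity)] at h3
    nlinarith
  linarith

lemma ev_pe (c K ρ : ℝ) (n : ℕ) (hc : 0 < c) (hρ : 0 < ρ) :
    ∀ᶠ L : ℝ in atTop, K * (L ^ n * Real.exp (-c * L)) ≤ ρ := by
  have h1 : Tendsto (fun L : ℝ => K * (L ^ (n : ℝ) * Real.exp (-c * L))) atTop (nhds (K * 0)) :=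
    (tendsto_rpow_mul_exp_neg_mul_atTop_nhds_zero n c hc).const_mul _
  rw [mul_zero] at h1
  filter_upwards [h1.eventually_le_const hρ] with L hL
  rwa [Real.rpow_natCast] at hL

lemma cos_le (α β : ℝ) (N n : ℕ) :
    |∑ k ∈ Icc 1 N, Real.cos ((β + α * k) * Real.log n)| ≤ DD α N n := by
  have h1 : ∑ k ∈ Icc 1 N, Real.cos ((β + α * k) * Real.log n) =
      (∑ k ∈ Icc 1 N, Complex.exp (-(Complex.I * (((β + α * k) * Real.log n : ℝ) : ℂ)))).re := by
    rw [Complex.re_sum]
    refine Finset.sum_congr rfl fun k _ => ?_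
    have h : -(Complex.I * (((β + α * k) * Real.log n : ℝ) : ℂ)) =
        ((-((β + α * k) * Real.log n) : ℝ) : ℂ) * Complex.I := by
      push_cast; ring
    rw [h, Complex.exp_ofReal_mul_I_re, Real.cos_neg]
  have h2 : ∑ k ∈ Icc 1 N, Complex.exp (-(Complex.I * (((β + α * k) * Real.log n : ℝ) : ℂ))) =
      Complex.exp (-(Complex.I * ((β * Real.log n : ℝ) : ℂ))) *
        ∑ k ∈ Icc 1 N, Complex.exp (-(Complex.I * ((α * k * Real.log n : ℝ) : ℂ))) := by
    rw [Finset.mul_sum]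
    refine Finset.sum_congr rfl fun k _ => ?_
    rw [← Complex.exp_add]
    congr 1
    push_cast
    ring
  rw [h1]
  refine (Complex.abs_re_le_norm _).trans ?_
  rw [h2, norm_mul]
  have h3 : ‖Complex.exp (-(Complex.I * ((β * Real.log n : ℝ) : ℂ)))‖ = 1 :=
    Pool.Agent.H345R2.AP.norm_term _
  rw [h3, one_mul]
  exact le_rfl

theorem ap_main (hRH : RH0) (α A ε : ℝ) (hα : 0 < α) (hA : 1 ≤ A) (hε : 0 < ε) :
    ∃ N0 : ℕ, ∀ N : ℕ, N0 ≤ N → ∀ β : ℝ, 0 ≤ β → β ≤ (N : ℝ) ^ A →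
      ∑ k ∈ Icc 1 N, (mz (β + α * k) : ℝ) ≤ (A / 2 + ε) * N := by
  classical
  obtain ⟨C, T0, hC, hT0, hmain⟩ := gi hRH
  obtain ⟨Cp, hCp, hps⟩ := primesum α hα
  obtain ⟨Cm, hCm, hmz⟩ := mz_le
  set e1 : ℝ := ε / (2 * A) with he1
  have he10 : 0 < e1 := by positivity
  set lam : ℝ := 1 / (1 / 2 + e1) with hlam
  have hlam0 : 0 < lam := by positivity
  have hinv : 1 / lam = 1 / 2 + e1 := by rw [hlam, one_div_one_div]
  have hAinv : A / lam = A / 2 + ε / 2 := by
    rw [div_eq_mul_one_div, hinv, he1]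
    field_simp
  have hlam2 : lam < 2 := by
    have h1 : lam < 1 / (1 / 2) := by
      rw [hlam]
      apply one_div_lt_one_div_of_lt (by positivity)
      linarith
    rwa [one_div_one_div] at h1
  set δ : ℝ := (2 - lam) / 2 with hδ
  have hδ0 : 0 < δ := by rw [hδ]; linarith
  have hδ1 : lam + 2 * δ = 2 := by rw [hδ]; ring
  have hδ2 : δ ≤ 1 := by linarith
  set p : ℝ := 1 + 3 / δ with hp
  have hp1 : 1 ≤ p := by
    rw [hp]; have : 0 < 3 / δ := by positivity
    linarith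
  have hSS := SS_nonneg
  set C4 : ℝ := Real.log (1 + α) + 2 * (2 * Cp + 1 + 2 * Real.exp (p ^ 2 / 2) * SS + C) with hC4
  -- growth
  have hev : ∀ᶠ L : ℝ in atTop, 1 ≤ L ∧ 4 * Real.sqrt (lam * L) ≤ δ / 8 * L ∧
      C4 ≤ lam * ε / 4 * L ∧ (7 ^ 3 * 2) * (L ^ 3 * Real.exp (-(δ / 2) * L)) ≤ 1 ∧
      (16 * (T0 + 2) / α) * (L ^ 1 * Real.exp (-(3 * δ / 8) * L)) ≤ 1 ∧
      (4 * Cm * (T0 + 5) ^ 2 / (α * ε)) * (L ^ 0 * Real.exp (-(3 / 4) * L)) ≤ 1 := by
    filter_upwards [eventually_ge_atTop (1 : ℝ), ev_sqrt lam δ hδ0,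
      eventually_ge_atTop (C4 / (lam * ε / 4)), ev_pe (δ / 2) (7 ^ 3 * 2) 1 3 (by positivity) one_pos,
      ev_pe (3 * δ / 8) (16 * (T0 + 2) / α) 1 1 (by positivity) one_pos,
      ev_pe (3 / 4) (4 * Cm * (T0 + 5) ^ 2 / (α * ε)) 1 0 (by positivity) one_pos]
      with L h1 h2 h3 h4 h5 h6
    refine ⟨h1, h2, ?_, h4, h5, h6⟩
    rw [div_le_iff₀ (by positivity)] at h3
    linarith
  have hlogt : Tendsto (fun N : ℕ => Real.log (N : ℝ)) atTop atTop :=
    Real.tendsto_log_atTop.comp tendsto_natCast_atTop_atTop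
  obtain ⟨N1, hN1⟩ := eventually_atTop.mp (hlogt.eventually hev)
  refine ⟨max N1 1, fun N hN β hβ0 hβ => ?_⟩
  obtain ⟨hL1, hsq, hLC, hg3, hg4, hg5⟩ := hN1 N ((le_max_left _ _).trans hN)
  have hN1' : 1 ≤ N := (le_max_right _ _).trans hN
  have hNr : (1 : ℝ) ≤ N := by exact_mod_cast hN1'
  have hN0 : (0 : ℝ) < N := by linarith
  set L : ℝ := Real.log N with hL
  have hL0 : 0 < L := by linarith
  have hNexp : Real.exp L = N := Real.exp_log hN0
  set tm : ℝ := T0 + 2 * Real.exp (4 * Real.sqrt (lam * L)) with htm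
  have hex1 : 1 ≤ Real.exp (δ / 8 * L) := Real.one_le_exp (by positivity)
  have hex2 : Real.exp (4 * Real.sqrt (lam * L)) ≤ Real.exp (δ / 8 * L) := Real.exp_le_exp.mpr hsq
  have hex0 : 0 < Real.exp (4 * Real.sqrt (lam * L)) := Real.exp_pos _
  have htm0 : 0 ≤ tm := by positivity
  have htm1 : tm ≤ (T0 + 2) * Real.exp (δ / 8 * L) := by
    have h1 : T0 * 1 ≤ T0 * Real.exp (δ / 8 * L) := mul_le_mul_of_nonneg_left hex1 (by linarith)
    rw [htm]; linarith
  have htm3 : tm + 3 ≤ (T0 + 5) * Real.exp (δ / 8 * L) := by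
    have h1 : (T0 + 5) * Real.exp (δ / 8 * L) = (T0 + 2) * Real.exp (δ / 8 * L) +
      3 * Real.exp (δ / 8 * L) := by ring
    rw [h1]; linarith
  -- the block length
  set I : ℕ := ⌈(lam + δ) * L / Real.log 2⌉₊ with hI
  have hlog2 : 0 < Real.log 2 := Real.log_pos (by norm_num)
  have hlog2a : 0.6931471803 < Real.log 2 := Real.log_two_gt_d9
  have hlog2b : Real.log 2 < 0.6931471808 := Real.log_two_lt_d9
  have hI1 : (lam + δ) * L ≤ I * Real.log 2 := by
    have := Nat.le_ceil ((lam + δ) * L / Real.log 2)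
    rw [div_le_iff₀ hlog2] at this
    exact this
  have hI2 : (I : ℝ) * Real.log 2 ≤ (lam + δ) * L + Real.log 2 := by
    have h1 := Nat.ceil_lt_add_one (show 0 ≤ (lam + δ) * L / Real.log 2 by positivity)
    rw [← hI] at h1
    have h2 : (I : ℝ) * Real.log 2 ≤ ((lam + δ) * L / Real.log 2 + 1) * Real.log 2 :=
      mul_le_mul_of_nonneg_right h1.le hlog2.le
    have h3 : ((lam + δ) * L / Real.log 2 + 1) * Real.log 2 = (lam + δ) * L + Real.log 2 := by
      field_simp
    linarith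
  have hB1 : 1 ≤ 2 ^ I := Nat.one_le_two_pow
  have hlogN : Real.log ((2 ^ I : ℕ) : ℝ) = I * Real.log 2 := by
    push_cast; rw [Real.log_pow]
  have hlogN4 : Real.log ((2 ^ I : ℕ) : ℝ) ≤ 4 * L := by
    rw [hlogN]
    have h3 : lam + δ ≤ 2 := by linarith
    have h4 : (lam + δ) * L ≤ 2 * L := mul_le_mul_of_nonneg_right h3 hL0.le
    linarith
  have hlogN0 : 0 ≤ Real.log ((2 ^ I : ℕ) : ℝ) := by rw [hlogN]; positivity
  have hI7 : (I : ℝ) + 1 ≤ 7 * L := by
    have h1 : (I : ℝ) * Real.log 2 ≤ 4 * L := by rw [← hlogN]; exact hlogN4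
    have h2 : (I : ℝ) * 0.69 ≤ I * Real.log 2 :=
      mul_le_mul_of_nonneg_left (by linarith) (Nat.cast_nonneg _)
    linarith
  have hsqrt : Real.sqrt ((2 ^ I : ℕ) : ℝ) ≤ 2 * (N * Real.exp (-(δ / 2 * L))) := by
    have h1 : Real.sqrt ((2 ^ I : ℕ) : ℝ) = Real.exp (I * Real.log 2 / 2) := by
      rw [Real.sqrt_eq_rpow, Real.rpow_def_of_pos (by positivity), hlogN]
      congr 1; ring
    have h3 : (2 : ℝ) = Real.exp (Real.log 2) := (Real.exp_log (by norm_num)).symm
    rw [h1]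
    calc Real.exp (I * Real.log 2 / 2) ≤ Real.exp (Real.log 2 + (L + -(δ / 2 * L))) := by
          apply Real.exp_le_exp.mpr
          have : (lam + δ) * L / 2 = L + -(δ / 2 * L) := by
            rw [show lam = 2 - 2 * δ by linarith]; ring
          linarith
      _ = _ := by rw [Real.exp_add, Real.exp_add, ← h3, hNexp]
  have hsqrt2 : (Real.sqrt 2) ^ I = Real.sqrt ((2 ^ I : ℕ) : ℝ) := by
    push_cast
    rw [Real.sqrt_eq_rpow, Real.sqrt_eq_rpow, ← Real.rpow_natCast, ← Real.rpow_natCast,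
      ← Real.rpow_mul (by norm_num), ← Real.rpow_mul (by norm_num), mul_comm]
  have hsq0 : 0 ≤ Real.sqrt ((2 ^ I : ℕ) : ℝ) := Real.sqrt_nonneg _
  -- the sets
  set P : ℕ → Prop := fun k => tm ≤ β + α * k with hP
  set S : Finset ℕ := (Icc 1 N).filter P with hS
  set E : Finset ℕ := (Icc 1 N).filter (fun k => ¬ P k) with hE
  have hScard : (S.card : ℝ) ≤ N := by
    have h1 : S.card ≤ (Icc 1 N).card := card_filter_le _ _
    rw [Nat.card_Icc] at h1
    have : S.card ≤ N := by omega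
    exact_mod_cast this
  have hEcard : (E.card : ℝ) ≤ tm / α := by
    have h1 : E ⊆ Icc 1 ⌊tm / α⌋₊ := by
      intro k hk
      rw [hE, mem_filter, mem_Icc] at hk
      rw [mem_Icc]
      refine ⟨hk.1.1, ?_⟩
      apply Nat.le_floor
      rw [le_div_iff₀ hα]
      have h2 := hk.2
      simp only [hP, not_le] at h2
      rw [mul_comm]
      linarith
    have h2 := card_le_card h1
    rw [Nat.card_Icc] at h2
    have h3 : (E.card : ℝ) ≤ ⌊tm / α⌋₊ := by
      have : E.card ≤ ⌊tm / α⌋₊ := by omega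
      exact_mod_cast this
    exact h3.trans (Nat.floor_le (by positivity))
  -- prime side
  have hprime : ∑ n ∈ Ico 1 (2 ^ I), vonMangoldt n * (n : ℝ) ^ (-(1 / 2 : ℝ)) *
      |∑ k ∈ S, Real.cos ((β + α * k) * Real.log n)| ≤ (2 * Cp + 1) * N := by
    have h1 : ∀ n ∈ Ico 1 (2 ^ I), vonMangoldt n * (n : ℝ) ^ (-(1 / 2 : ℝ)) *
        |∑ k ∈ S, Real.cos ((β + α * k) * Real.log n)| ≤
        vonMangoldt n * (n : ℝ) ^ (-(1 / 2 : ℝ)) * DD α N n +
        vonMangoldt n * (n : ℝ) ^ (-(1 / 2 : ℝ)) * E.card := by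
      intro n _
      rw [← mul_add]
      apply mul_le_mul_of_nonneg_left _ (mul_nonneg vonMangoldt_nonneg (by positivity))
      have h2 := Finset.sum_filter_add_sum_filter_not (Icc 1 N) P
        (fun k : ℕ => Real.cos ((β + α * k) * Real.log n))
      have h3 : |∑ k ∈ E, Real.cos ((β + α * k) * Real.log n)| ≤ E.card := by
        refine (Finset.abs_sum_le_sum_abs _ _).trans ?_
        refine (Finset.sum_le_sum fun k _ => Real.abs_cos_le_one _).trans ?_
        simp
      have h4 := cos_le α β N n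
      have h5 : ∑ k ∈ S, Real.cos ((β + α * k) * Real.log n) =
          ∑ k ∈ Icc 1 N, Real.cos ((β + α * k) * Real.log n) -
          ∑ k ∈ E, Real.cos ((β + α * k) * Real.log n) := by
        rw [← h2]; ring
      rw [h5]
      refine (abs_sub _ _).trans ?_
      exact add_le_add h4 h3
    refine (Finset.sum_le_sum h1).trans ?_
    rw [Finset.sum_add_distrib, ← Finset.sum_mul]
    have h2 := hps N I
    have h3 := plain (2 ^ I) hB1
    have h4 : Cp * (N + (I + 1) ^ 3 * (Real.sqrt 2) ^ I) ≤ 2 * Cp * N := by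
      have h5 : ((I : ℝ) + 1) ^ 3 * (Real.sqrt 2) ^ I ≤ N := by
        rw [hsqrt2]
        calc ((I : ℝ) + 1) ^ 3 * Real.sqrt ((2 ^ I : ℕ) : ℝ)
            ≤ (7 * L) ^ 3 * (2 * (N * Real.exp (-(δ / 2 * L)))) := by
              apply mul_le_mul (pow_le_pow_left₀ (by positivity) hI7 3) hsqrt hsq0 (by positivity)
          _ = N * ((7 ^ 3 * 2) * (L ^ 3 * Real.exp (-(δ / 2) * L))) := by
              rw [show -(δ / 2) * L = -(δ / 2 * L) by ring]; ring
          _ ≤ N * 1 := mul_le_mul_of_nonneg_left hg3 hN0.le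
          _ = N := mul_one _
      have h6 : Cp * (N + (I + 1) ^ 3 * (Real.sqrt 2) ^ I) ≤ Cp * (N + N) :=
        mul_le_mul_of_nonneg_left (by linarith) hCp.le
      linarith
    have h5 : (∑ n ∈ Ico 1 (2 ^ I), vonMangoldt n * (n : ℝ) ^ (-(1 / 2 : ℝ))) * E.card ≤ N := by
      have h6 : (∑ n ∈ Ico 1 (2 ^ I), vonMangoldt n * (n : ℝ) ^ (-(1 / 2 : ℝ))) ≤
          2 * (2 * (N * Real.exp (-(δ / 2 * L)))) * (4 * L) := by
        refine h3.trans ?_
        apply mul_le_mul _ hlogN4 hlogN0 (by positivity)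
        linarith
      have h7 : (E.card : ℝ) ≤ (T0 + 2) / α * Real.exp (δ / 8 * L) := by
        refine hEcard.trans ?_
        rw [div_mul_eq_mul_div]
        exact div_le_div_of_nonneg_right htm1 hα.le
      calc (∑ n ∈ Ico 1 (2 ^ I), vonMangoldt n * (n : ℝ) ^ (-(1 / 2 : ℝ))) * E.card
          ≤ (2 * (2 * (N * Real.exp (-(δ / 2 * L)))) * (4 * L)) *
            ((T0 + 2) / α * Real.exp (δ / 8 * L)) :=
            mul_le_mul h6 h7 (by positivity) (by positivity)
        _ = N * ((16 * (T0 + 2) / α) * (L * (Real.exp (-(δ / 2 * L)) * Real.exp (δ / 8 * L)))) := by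
            ring
        _ = N * ((16 * (T0 + 2) / α) * (L ^ 1 * Real.exp (-(3 * δ / 8) * L))) := by
            rw [← Real.exp_add, pow_one]
            congr 4
            ring
        _ ≤ N * 1 := mul_le_mul_of_nonneg_left hg4 hN0.le
        _ = N := mul_one _
    have h6 : (2 * Cp + 1) * (N : ℝ) = 2 * Cp * N + N := by ring
    rw [h6]
    exact add_le_add (h2.trans h4) h5
  -- the main inequality
  have hNA : (N : ℝ) ≤ (N : ℝ) ^ A := by
    calc (N : ℝ) = (N : ℝ) ^ (1 : ℝ) := (Real.rpow_one _).symm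
      _ ≤ (N : ℝ) ^ A := Real.rpow_le_rpow_of_exponent_le hNr hA
  have hNA0 : 0 < (N : ℝ) ^ A := by positivity
  have hpos : ∀ k ∈ Icc 1 N, 0 < β + α * k := by
    intro k hk
    rw [mem_Icc] at hk
    have h1 : (0 : ℝ) < k := by exact_mod_cast hk.1
    have h2 := mul_pos hα h1
    linarith
  have hm := hmain ℕ S (fun k => β + α * k) ((1 + α) * (N : ℝ) ^ A) (lam * L) p (2 ^ I)
    (by positivity) hp1 hB1 (by
      intro k hk
      rw [hS, mem_filter] at hk
      have hk1 := hpos k hk.1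
      have hk2 : tm ≤ β + α * k := hk.2
      have hkN : (k : ℝ) ≤ N := by
        have := (mem_Icc.mp hk.1).2
        exact_mod_cast this
      simp only [abs_of_pos hk1]
      refine ⟨by linarith, ?_, ?_⟩
      · have h1 : α * k ≤ α * (N : ℝ) ^ A := mul_le_mul_of_nonneg_left (hkN.trans hNA) hα.le
        have h2 : (1 + α) * (N : ℝ) ^ A = (N : ℝ) ^ A + α * (N : ℝ) ^ A := by ring
        rw [h2]
        linarith
      · have h1 : 4 * Real.sqrt (lam * L) ≤ Real.log ((β + α * k) / 2) := by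
          rw [Real.le_log_iff_exp_le (by linarith)]
          linarith
        have h2 : 0 ≤ lam * L := by positivity
        have h3 := Real.mul_self_sqrt h2
        have h4 := Real.sqrt_nonneg (lam * L)
        have h5 : (4 * Real.sqrt (lam * L)) ^ 2 ≤ Real.log ((β + α * k) / 2) ^ 2 :=
          pow_le_pow_left₀ (by positivity) h1 2
        have h6 : (4 * Real.sqrt (lam * L)) ^ 2 = 16 * (Real.sqrt (lam * L) *
          Real.sqrt (lam * L)) := by ring
        rw [h6, h3] at h5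
        linarith)
  rw [hlogN] at hm
  have hBb : Real.exp (p ^ 2 / 2 + p * (lam * L) + (1 - p) * (I * Real.log 2)) * (lam * L) ≤
      2 * Real.exp (p ^ 2 / 2) := by
    have h1 : p ^ 2 / 2 + p * (lam * L) + (1 - p) * (I * Real.log 2) ≤ p ^ 2 / 2 + -L := by
      have h2 : (1 - p) * (I * Real.log 2) ≤ (1 - p) * ((lam + δ) * L) :=
        mul_le_mul_of_nonpos_left hI1 (by linarith)
      have h3 : p * (lam * L) + (1 - p) * ((lam + δ) * L) = lam * L - 3 * L := by
        rw [hp]; field_simp; ring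
      have h4 : lam * L ≤ 2 * L := mul_le_mul_of_nonneg_right hlam2.le hL0.le
      linarith
    calc Real.exp (p ^ 2 / 2 + p * (lam * L) + (1 - p) * (I * Real.log 2)) * (lam * L)
        ≤ Real.exp (p ^ 2 / 2 + -L) * (lam * L) :=
          mul_le_mul_of_nonneg_right (Real.exp_le_exp.mpr h1) (by positivity)
      _ = Real.exp (p ^ 2 / 2) * (Real.exp (-L) * L * lam) := by rw [Real.exp_add]; ring
      _ ≤ Real.exp (p ^ 2 / 2) * (1 * 2) := by
          apply mul_le_mul_of_nonneg_left _ (Real.exp_pos _).le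
          apply mul_le_mul _ hlam2.le hlam0.le (by norm_num)
          rw [Real.exp_neg, inv_mul_le_iff₀ (Real.exp_pos _), mul_one]
          linarith [Real.add_one_le_exp L]
      _ = _ := by ring
  have hlogM : Real.log ((1 + α) * (N : ℝ) ^ A) = Real.log (1 + α) + A * L := by
    rw [Real.log_mul (by positivity) hNA0.ne', Real.log_rpow hN0]
  have hloga : 0 ≤ Real.log (1 + α) := Real.log_nonneg (by linarith)
  have hsumS : ∑ k ∈ S, (mz |β + α * (k : ℝ)| : ℝ) = ∑ k ∈ S, (mz (β + α * (k : ℝ)) : ℝ) := by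
    refine Finset.sum_congr rfl fun k hk => ?_
    rw [abs_of_pos (hpos k (mem_filter.mp hk).1)]
  have hm2 : lam * L / 2 * ∑ k ∈ S, (mz (β + α * (k : ℝ)) : ℝ) ≤ N * (A * L / 2 + C4 / 2) := by
    rw [← hsumS]
    refine hm.trans ?_
    have h1 : (S.card : ℝ) * Real.exp (p ^ 2 / 2 + p * (lam * L) + (1 - p) * (I * Real.log 2)) *
        SS * (lam * L) = S.card * SS * (Real.exp (p ^ 2 / 2 + p * (lam * L) +
        (1 - p) * (I * Real.log 2)) * (lam * L)) := by ring
    rw [h1, hlogM]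
    have h2 : (S.card : ℝ) * SS * (Real.exp (p ^ 2 / 2 + p * (lam * L) +
        (1 - p) * (I * Real.log 2)) * (lam * L)) ≤ N * SS * (2 * Real.exp (p ^ 2 / 2)) := by
      apply mul_le_mul _ hBb (by positivity) (by positivity)
      exact mul_le_mul_of_nonneg_right hScard hSS
    have h3 : (S.card : ℝ) * (Real.log (1 + α) + A * L) / 2 ≤ N * (Real.log (1 + α) + A * L) / 2 := by
      have := mul_le_mul_of_nonneg_right hScard (show 0 ≤ Real.log (1 + α) + A * L by positivity)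
      linarith
    have h4 : (S.card : ℝ) * C ≤ N * C := mul_le_mul_of_nonneg_right hScard hC.le
    have h5 : N * (A * L / 2 + C4 / 2) = N * (Real.log (1 + α) + A * L) / 2 +
        (2 * Cp + 1) * N + N * SS * (2 * Real.exp (p ^ 2 / 2)) + N * C := by
      rw [hC4]; ring
    rw [h5]
    exact add_le_add (add_le_add (add_le_add h3 hprime) h2) h4
  have hm3 : ∑ k ∈ S, (mz (β + α * (k : ℝ)) : ℝ) ≤ (A / 2 + ε / 2 + ε / 4) * N := by
    have h0 : 0 < lam * L / 2 := by positivity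
    have h1 : ∑ k ∈ S, (mz (β + α * (k : ℝ)) : ℝ) ≤ N * (A * L / 2 + C4 / 2) / (lam * L / 2) := by
      rw [le_div_iff₀ h0, mul_comm]
      exact hm2
    refine h1.trans ?_
    have h2 : N * (A * L / 2 + C4 / 2) / (lam * L / 2) = (A / lam + C4 / (lam * L)) * N := by
      field_simp
    rw [h2, hAinv]
    apply mul_le_mul_of_nonneg_right _ hN0.le
    have h3 : C4 / (lam * L) ≤ ε / 4 := by
      rw [div_le_iff₀ (by positivity)]
      calc C4 ≤ lam * ε / 4 * L := hLC
        _ = _ := by ring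
    linarith
  have hm4 : ∑ k ∈ E, (mz (β + α * (k : ℝ)) : ℝ) ≤ ε / 4 * N := by
    have h1 : ∑ k ∈ E, (mz (β + α * (k : ℝ)) : ℝ) ≤ ∑ k ∈ E, Cm * (tm + 3) := by
      refine Finset.sum_le_sum fun k hk => ?_
      rw [hE, mem_filter] at hk
      have h2 := hpos k hk.1
      have h3 := hk.2
      simp only [hP, not_le] at h3
      refine (hmz _ h2).trans ?_
      apply mul_le_mul_of_nonneg_left _ hCm.le
      linarith
    rw [Finset.sum_const, nsmul_eq_mul] at h1
    refine h1.trans ?_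
    have h2 : Real.exp (δ / 8 * L) ^ 2 ≤ N * Real.exp (-(3 / 4) * L) := by
      rw [← hNexp, ← Real.exp_add, ← Real.exp_nat_mul]
      apply Real.exp_le_exp.mpr
      push_cast
      have h3 : δ * L ≤ 1 * L := mul_le_mul_of_nonneg_right hδ2 hL0.le
      linarith
    have h3 : (E.card : ℝ) * (Cm * (tm + 3)) ≤ Cm / α * (tm + 3) ^ 2 := by
      calc (E.card : ℝ) * (Cm * (tm + 3)) ≤ (tm / α) * (Cm * (tm + 3)) :=
            mul_le_mul_of_nonneg_right hEcard (by positivity)
        _ = Cm / α * (tm * (tm + 3)) := by ring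
        _ ≤ Cm / α * ((tm + 3) * (tm + 3)) := by
            apply mul_le_mul_of_nonneg_left _ (by positivity)
            exact mul_le_mul_of_nonneg_right (by linarith) (by positivity)
        _ = _ := by ring
    have h4 : (tm + 3) ^ 2 ≤ (T0 + 5) ^ 2 * (N * Real.exp (-(3 / 4) * L)) := by
      calc (tm + 3) ^ 2 ≤ ((T0 + 5) * Real.exp (δ / 8 * L)) ^ 2 :=
            pow_le_pow_left₀ (by positivity) htm3 2
        _ = (T0 + 5) ^ 2 * Real.exp (δ / 8 * L) ^ 2 := by ring
        _ ≤ _ := mul_le_mul_of_nonneg_left h2 (by positivity)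
    calc (E.card : ℝ) * (Cm * (tm + 3)) ≤ Cm / α * (tm + 3) ^ 2 := h3
      _ ≤ Cm / α * ((T0 + 5) ^ 2 * (N * Real.exp (-(3 / 4) * L))) :=
          mul_le_mul_of_nonneg_left h4 (by positivity)
      _ = ε / 4 * N * ((4 * Cm * (T0 + 5) ^ 2 / (α * ε)) * (L ^ 0 * Real.exp (-(3 / 4) * L))) := by
          field_simp
      _ ≤ ε / 4 * N * 1 := mul_le_mul_of_nonneg_left hg5 (by positivity)
      _ = _ := mul_one _
  have hsplit := Finset.sum_filter_add_sum_filter_not (Icc 1 N) P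
    (fun k : ℕ => (mz (β + α * (k : ℝ)) : ℝ))
  rw [← hsplit]
  have : (A / 2 + ε) * (N : ℝ) = (A / 2 + ε / 2 + ε / 4) * N + ε / 4 * N := by ring
  rw [this]
  exact add_le_add hm3 hm4

end Pool.Agent.Y743.AP
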